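import Pool.Agent.H57.UlB

set_option autoImplicit false

namespace Pool.Agent.Results.MP_f46d86_al.FreeOrbit

open Set Function

/-- a profinite group acting continuously from the right on a profinite space -/
structure Pile where
  G : ProfiniteGrp.{0}
  T : Profinite.{0}
  act : T → G → T
  act_one : ∀ t, act t 1 = t
  act_mul : ∀ t g h, act t (g * h) = act (act t g) h
  cont : Continuous fun p : T × G => act p.1 p.2

/-- point stabilizers -/
def Pile.stab (P : Pile) (t : P.T) : Set P.G := {g | P.act t g = t}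

/-- the orbit space -/
abbrev Pile.Orb (P : Pile) : Type := Quot fun s t : P.T => ∃ g, P.act s g = t

/-- morphisms of piles -/
structure Mor (B A : Pile) where
  f : B.G →* A.G
  hf : Continuous f
  m : B.T → A.T
  hm : Continuous m
  eqv : ∀ y b, m (B.act y b) = A.act (m y) (f b)

/-- epimorphisms -/
def Mor.Epi {B A : Pile} (α : Mor B A) : Prop :=
  Surjective α.f ∧ Surjective α.m ∧ ∀ x, ∃ y, α.m y = x ∧ α.f '' B.stab y = A.stab x

/-- rigid morphisms -/
def Mor.Rigid {B A : Pile} (α : Mor B A) : Prop :=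
  (∀ y, BijOn α.f (B.stab y) (A.stab (α.m y))) ∧
    ∃ e : B.Orb ≃ₜ A.Orb, ∀ y, e (Quot.mk _ y) = Quot.mk _ (α.m y)

/-- projective piles -/
def Pile.Projective (P : Pile) : Prop :=
  ∀ (A B : Pile) (φ : Mor P A) (α : Mor B A), Finite B.G → Finite B.T → α.Epi → α.Rigid →
    ∃ γ : Mor P B, (∀ g, α.f (γ.f g) = φ.f g) ∧ ∀ t, α.m (γ.m t) = φ.m t

/-- free factors -/
def FreeFactor {F : Type} [Group F] (A : Subgroup F) : Prop :=
  ∃ B : Subgroup F, Bijective (Monoid.Coprod.lift A.subtype B.subtype)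

/-- one free orbit and one fixed point -/
def pile (G : ProfiniteGrp.{0}) : Pile where
  G := G
  T := Profinite.of (G ⊕ Unit)
  act t g := Sum.map (· * g) id t
  act_one t := by cases t <;> simp
  act_mul t g h := by cases t <;> simp [mul_assoc]
  cont := by
    have h : Continuous (Sum.map (fun p : G × G => p.1 * p.2) (fun p : Unit × G => p.1) ∘
        (Homeomorph.sumProdDistrib : (G ⊕ Unit) × G ≃ₜ _)) :=
      (Continuous.sumMap continuous_mul continuous_fst).comp (Homeomorph.continuous _)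
    convert h using 1
    funext ⟨t, g⟩
    cases t <;> rfl

theorem proj (G : ProfiniteGrp.{0}) : (pile G).Projective := by
  intro A B φ α hG hT hE hR
  obtain ⟨y, hy⟩ := hE.2.1 (φ.m (Sum.inr ()))
  obtain ⟨y', hy'⟩ := hE.2.1 (φ.m (Sum.inl 1))
  have hb := hR.1 y
  haveI : Finite A.G := Finite.of_surjective _ hE.1
  have hs : ∀ g : G, φ.f g ∈ A.stab (α.m y) := fun g => by
    rw [hy]; exact (φ.eqv (Sum.inr ()) g).symm
  let s : A.G → B.G := invFunOn α.f (B.stab y)
  have s1 : ∀ g : G, s (φ.f g) ∈ B.stab y := fun g => invFunOn_mem (hb.surjOn (hs g))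
  have s2 : ∀ g : G, α.f (s (φ.f g)) = φ.f g := fun g => invFunOn_eq (hb.surjOn (hs g))
  have smul : ∀ g h : G, s (φ.f (g * h)) = s (φ.f g) * s (φ.f h) := fun g h => by
    refine hb.injOn (s1 _) ?_ ?_
    · show B.act y _ = y
      rw [B.act_mul, s1 g, s1 h]
    · rw [map_mul α.f, s2, s2, s2]; exact map_mul φ.f g h
  have hc : Continuous fun g : G => s (φ.f g) := (continuous_of_discreteTopology (f := s)).comp φ.hf
  refine ⟨⟨MonoidHom.mk' (fun g : G => s (φ.f g)) smul, hc,
    Sum.elim (fun x : G => B.act y' (s (φ.f x))) (fun _ => y),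
    Continuous.sumElim (B.cont.comp (continuous_const.prodMk hc)) continuous_const, ?_⟩, s2, ?_⟩
  · rintro (x | u) b
    · exact (congrArg (B.act y') (smul x b)).trans (B.act_mul _ _ _)
    · exact (s1 b).symm
  · rintro (x | u)
    · show α.m (B.act y' (s (φ.f x))) = φ.m (Sum.inl x)
      rw [α.eqv, s2, hy']
      exact (φ.eqv (Sum.inl 1) x).symm.trans (congrArg (fun z => φ.m (Sum.inl z)) (one_mul x))
    · exact hy

open ProfiniteGrp.ProfiniteCompletion in
theorem result :
    ∃ (g : FreeGroup (Fin 2)) (T : Profinite.{0})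
      (act : T → completion (GrpCat.of (FreeGroup (Fin 2))) → T) (h1 : _) (h2 : _) (h3 : _) (t : T),
      g ≠ 1 ∧ Pile.Projective ⟨completion (GrpCat.of (FreeGroup (Fin 2))), T, act, h1, h2, h3⟩ ∧
        Nontrivial T ∧ act t (etaFn (GrpCat.of (FreeGroup (Fin 2))) g) = t ∧
        ∀ A : Subgroup (FreeGroup (Fin 2)), FreeFactor A → A ≠ ⊤ → g ∉ A :=
  ⟨_, _, _, _, _, _, Sum.inr (), H57.Heis.comm_ne, proj _,
    ⟨Sum.inl 1, Sum.inr (), Sum.inl_ne_inr⟩, rfl,
    fun A ⟨B, hb⟩ hA => H57.Heis.not_mem A B hb hA⟩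

end Pool.Agent.Results.MP_f46d86_al.FreeOrbit
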